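import Mathlib

/-!
# Inserting empty lines can destroy boundedness of an interval-minor class

Let `A`, `B` be the `4 × 4` permutation matrices of `1234` and `2134`.  The class `Av({A, B})` is
bounded: a critical matrix has at most eight 0-runs in each line.  Let `A⁺` be `A` with an empty row
and an empty column inserted between any two consecutive rows and columns (a `7 × 7` matrix), and
let `B⁺` be `B` with empty rows and columns inserted after the first and after the second row and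
column (a `6 × 6` matrix).  Then `Av({A⁺, B⁺})` is not column-bounded.
-/

set_option autoImplicit false

namespace Pool.Agent.Results.MP_5adcc8_co.EmptyLinesMatter

/-! ## Definitions -/

/-- A binary matrix (or pattern) with `m` rows and `n` columns. -/
structure BMat where
  /-- number of rows -/
  m : ℕ
  /-- number of columns -/
  n : ℕ
  /-- entries -/
  e : Fin m → Fin n → Bool

/-- `P` is an interval minor of `M`.  The map `f` records into which row of the contracted matrix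
each row of `M` goes (contracting adjacent rows gives exactly the monotone surjections), and `g`
does the same for columns; an entry of the contracted matrix is the maximum of the merged
entries, and it has to be `1` wherever `P` has a `1`. -/
def IsMinor (P M : BMat) : Prop :=
  ∃ (f : Fin M.m → Fin P.m) (g : Fin M.n → Fin P.n),
    Monotone f ∧ Function.Surjective f ∧ Monotone g ∧ Function.Surjective g ∧
    ∀ i j, P.e i j = true → ∃ a b, f a = i ∧ g b = j ∧ M.e a b = true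

/-- The class of binary matrices avoiding every pattern in `F`. -/
def Av (F : Set BMat) : Set BMat := {M | ∀ P ∈ F, ¬ IsMinor P M}

/-- `M` with the entry at `(i, j)` changed to `1`. -/
def BMat.setOne (M : BMat) (i : Fin M.m) (j : Fin M.n) : BMat :=
  ⟨M.m, M.n, fun a b => if a = i ∧ b = j then true else M.e a b⟩

/-- `M` is critical for the class `C`. -/
def Critical (C : Set BMat) (M : BMat) : Prop :=
  M ∈ C ∧ ∀ i j, M.e i j = false → M.setOne i j ∉ C

/-- The number of 0-runs (maximal blocks of consecutive 0-entries) of a 0-1 word: a 0-run is counted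
at its first position, a 0-entry which is the first entry or comes right after a 1-entry. -/
def zeroRuns {k : ℕ} (w : Fin k → Bool) : ℕ :=
  (Finset.univ.filter fun x : Fin k =>
    w x = false ∧ ∀ y : Fin k, (y : ℕ) + 1 = x → w y = true).card

/-- The row-complexity of `C` is finite. -/
def RowBounded (C : Set BMat) : Prop :=
  ∃ K : ℕ, ∀ M, Critical C M → ∀ i : Fin M.m, zeroRuns (fun j => M.e i j) ≤ K

/-- The column-complexity of `C` is finite. -/
def ColBounded (C : Set BMat) : Prop :=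
  ∃ K : ℕ, ∀ M, Critical C M → ∀ j : Fin M.n, zeroRuns (fun i => M.e i j) ≤ K

/-- The class `C` is bounded. -/
def Bounded (C : Set BMat) : Prop := RowBounded C ∧ ColBounded C

/-- `Q` is obtained from `P` by inserting empty rows and empty columns at arbitrary positions. -/
def InsertEmpty (P Q : BMat) : Prop :=
  ∃ (ρ : Fin P.m → Fin Q.m) (γ : Fin P.n → Fin Q.n), StrictMono ρ ∧ StrictMono γ ∧
    (∀ i j, Q.e (ρ i) (γ j) = P.e i j) ∧
    ∀ a b, (a ∉ Set.range ρ ∨ b ∉ Set.range γ) → Q.e a b = false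

/-- The permutation matrix of `1234`. -/
def A : BMat := ⟨4, 4, fun i j => decide (i = j)⟩

/-- The permutation matrix of `2134`. -/
def B : BMat := ⟨4, 4, fun i j => decide
  ((i.val = 0 ∧ j.val = 1) ∨ (i.val = 1 ∧ j.val = 0) ∨ (i.val = 2 ∧ j.val = 2) ∨
    (i.val = 3 ∧ j.val = 3))⟩

/-- `A` with empty lines inserted between any two consecutive lines. -/
def A' : BMat := ⟨7, 7, fun i j => decide (i = j ∧ i.val % 2 = 0)⟩

/-- `B` with empty lines inserted after the first and after the second row and column. -/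
def B' : BMat := ⟨6, 6, fun i j => decide
  ((i.val = 0 ∧ j.val = 2) ∨ (i.val = 2 ∧ j.val = 0) ∨ (i.val = 4 ∧ j.val = 4) ∨
    (i.val = 5 ∧ j.val = 5))⟩

/-- the position of a line of `A` in `A'` -/
def posA (i : Fin 4) : Fin 7 := ⟨2 * i.val, by omega⟩

theorem insertEmpty_A : InsertEmpty A A' := by
  refine ⟨posA, posA, ?_, ?_, ?_, ?_⟩
  · intro i j h
    revert i j
    decide
  · intro i j h
    revert i j
    decide
  · have : ∀ i j : Fin 4, A'.e (posA i) (posA j) = A.e i j := by decide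
    exact this
  · have key : ∀ a b : Fin 7, A'.e a b = true → (∃ i : Fin 4, posA i = a) ∧
        ∃ j : Fin 4, posA j = b := by decide
    intro a b h
    by_contra hc
    rw [Bool.not_eq_false] at hc
    obtain ⟨h1, h2⟩ := key a b hc
    rcases h with h | h
    · exact h h1
    · exact h h2

/-- the position of a line of `B` in `B'` -/
def pos (i : Fin 4) : Fin 6 := if i.val = 0 then 0 else if i.val = 1 then 2 else
  if i.val = 2 then 4 else 5

theorem insertEmpty_B : InsertEmpty B B' := by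
  refine ⟨pos, pos, ?_, ?_, ?_, ?_⟩
  · intro i j h
    revert i j
    decide
  · intro i j h
    revert i j
    decide
  · have : ∀ i j : Fin 4, B'.e (pos i) (pos j) = B.e i j := by decide
    exact this
  · have key : ∀ a b : Fin 6, B'.e a b = true → (∃ i : Fin 4, pos i = a) ∧
        ∃ j : Fin 4, pos j = b := by decide
    intro a b h
    by_contra hc
    rw [Bool.not_eq_false] at hc
    obtain ⟨h1, h2⟩ := key a b hc
    rcases h with h | h
    · exact h h1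
    · exact h h2

/-! ## Chains in a 0-1 array -/

/-- an occurrence of `1234` -/
def HasA {p q : ℕ} (w : Fin p → Fin q → Bool) : Prop :=
  ∃ (a₀ a₁ a₂ a₃ : Fin p) (b₀ b₁ b₂ b₃ : Fin q), a₀ < a₁ ∧ a₁ < a₂ ∧ a₂ < a₃ ∧
    b₀ < b₁ ∧ b₁ < b₂ ∧ b₂ < b₃ ∧
    w a₀ b₀ = true ∧ w a₁ b₁ = true ∧ w a₂ b₂ = true ∧ w a₃ b₃ = true

/-- an occurrence of `2134` -/
def HasB {p q : ℕ} (w : Fin p → Fin q → Bool) : Prop :=
  ∃ (a₀ a₁ a₂ a₃ : Fin p) (b₀ b₁ b₂ b₃ : Fin q), a₀ < a₁ ∧ a₁ < a₂ ∧ a₂ < a₃ ∧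
    b₀ < b₁ ∧ b₁ < b₂ ∧ b₂ < b₃ ∧
    w a₀ b₁ = true ∧ w a₁ b₀ = true ∧ w a₂ b₂ = true ∧ w a₃ b₃ = true

/-- A submatrix is an interval minor: from strictly increasing row and column selections. -/
theorem exists_surj {p k : ℕ} (ρ : Fin k → Fin p) (hρ : StrictMono ρ) (hk : 0 < k) :
    ∃ f : Fin p → Fin k, Monotone f ∧ Function.Surjective f ∧ ∀ i, f (ρ i) = i := by
  classical
  have hne : ∀ a : Fin p, ∃ n : ℕ, n ≤ k - 1 ∧ (n = 0 ∨ ∃ h : n < k, ρ ⟨n, h⟩ ≤ a) :=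
    fun a => ⟨0, Nat.zero_le _, Or.inl rfl⟩
  let P : Fin p → ℕ → Prop := fun a n => n = 0 ∨ ∃ h : n < k, ρ ⟨n, h⟩ ≤ a
  let F : Fin p → ℕ := fun a => Nat.findGreatest (P a) (k - 1)
  have hFle : ∀ a, F a ≤ k - 1 := fun a => Nat.findGreatest_le _
  have hP0 : ∀ a, P a 0 := fun a => Or.inl rfl
  have hspec : ∀ a, P a (F a) := fun a =>
    Nat.findGreatest_spec (P := P a) (Nat.zero_le (k - 1)) (hP0 a)
  have hfρ : ∀ i : Fin k, F (ρ i) = i := by
    intro i
    apply le_antisymm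
    · rcases hspec (ρ i) with h | ⟨h, h'⟩
      · omega
      · have := hρ.le_iff_le.1 h'
        exact this
    · exact Nat.le_findGreatest (by omega) (Or.inr ⟨i.2, le_rfl⟩)
  refine ⟨fun a => ⟨F a, by have := hFle a; omega⟩, ?_, ?_, ?_⟩
  · intro a b hab
    show F a ≤ F b
    apply Nat.le_findGreatest (hFle a)
    rcases hspec a with h | ⟨h, h'⟩
    · exact Or.inl h
    · exact Or.inr ⟨h, h'.trans hab⟩
  · intro i
    exact ⟨ρ i, Fin.ext (hfρ i)⟩
  · intro i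
    exact Fin.ext (hfρ i)

theorem isMinor_of_sub {P M : BMat} (ρ : Fin P.m → Fin M.m) (γ : Fin P.n → Fin M.n)
    (hρ : StrictMono ρ) (hγ : StrictMono γ) (hm : 0 < P.m) (hn : 0 < P.n)
    (h : ∀ i j, P.e i j = true → M.e (ρ i) (γ j) = true) : IsMinor P M := by
  obtain ⟨f, hf1, hf2, hf3⟩ := exists_surj ρ hρ hm
  obtain ⟨g, hg1, hg2, hg3⟩ := exists_surj γ hγ hn
  exact ⟨f, g, hf1, hf2, hg1, hg2, fun i j hij => ⟨ρ i, γ j, hf3 i, hg3 j, h i j hij⟩⟩

/-- A monotone surjection onto an initial segment does not jump. -/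
theorem gap {p k : ℕ} (f : Fin p → Fin k) (hf : Monotone f) (hs : Function.Surjective f)
    (a b : Fin p) (h : f a ≤ f b) : (f b : ℕ) - f a ≤ b - a := by
  classical
  rcases eq_or_lt_of_le h with h0 | h0
  · rw [h0]; omega
  · have hab : a < b := by
      by_contra hc
      exact absurd (hf (not_lt.1 hc)) (not_le.2 h0)
    -- the values `f a + 1, …, f b` are attained on `(a, b]`
    have hsub : Finset.Ioc (f a) (f b) ⊆ (Finset.Ioc a b).image f := by
      intro c hc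
      rw [Finset.mem_Ioc] at hc
      by_cases hcb : c = f b
      · exact Finset.mem_image.2 ⟨b, Finset.mem_Ioc.2 ⟨hab, le_rfl⟩, hcb.symm⟩
      · obtain ⟨x, hx⟩ := hs c
        refine Finset.mem_image.2 ⟨x, Finset.mem_Ioc.2 ⟨?_, ?_⟩, hx⟩
        · by_contra hcx
          have := hf (not_lt.1 hcx)
          rw [hx] at this
          exact absurd hc.1 (not_lt.2 this)
        · by_contra hcx
          have := hf (not_le.1 hcx).le
          rw [hx] at this
          exact hcb (le_antisymm hc.2 this)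
    have h1 := (Finset.card_le_card hsub).trans Finset.card_image_le
    rw [Fin.card_Ioc, Fin.card_Ioc] at h1
    exact h1

theorem hasA_iff (M : BMat) : IsMinor A M ↔ HasA M.e := by
  constructor
  · rintro ⟨f, g, hf, -, hg, -, h⟩
    have key : ∀ i : Fin 4, ∃ a b, f a = i ∧ g b = i ∧ M.e a b = true := by
      intro i
      exact h i i (by simp [A])
    obtain ⟨a₀, b₀, h0, h0', e0⟩ := key 0
    obtain ⟨a₁, b₁, h1, h1', e1⟩ := key 1
    obtain ⟨a₂, b₂, h2, h2', e2⟩ := key 2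
    obtain ⟨a₃, b₃, h3, h3', e3⟩ := key 3
    refine ⟨a₀, a₁, a₂, a₃, b₀, b₁, b₂, b₃, ?_, ?_, ?_, ?_, ?_, ?_, e0, e1, e2, e3⟩
    · exact hf.reflect_lt (by rw [h0, h1]; decide)
    · exact hf.reflect_lt (by rw [h1, h2]; decide)
    · exact hf.reflect_lt (by rw [h2, h3]; decide)
    · exact hg.reflect_lt (by rw [h0', h1']; decide)
    · exact hg.reflect_lt (by rw [h1', h2']; decide)
    · exact hg.reflect_lt (by rw [h2', h3']; decide)
  · rintro ⟨a₀, a₁, a₂, a₃, b₀, b₁, b₂, b₃, h1, h2, h3, g1, g2, g3, e0, e1, e2, e3⟩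
    refine isMinor_of_sub (P := A) ![a₀, a₁, a₂, a₃] ![b₀, b₁, b₂, b₃] ?_ ?_ (by decide)
      (by decide) ?_
    · exact Fin.strictMono_iff_lt_succ.2 (by
        intro i; fin_cases i <;> assumption)
    · exact Fin.strictMono_iff_lt_succ.2 (by
        intro i; fin_cases i <;> assumption)
    · intro i j hij
      have : i = j := by simpa [A] using hij
      subst this
      revert i
      intro i _
      fin_cases i <;> assumption

theorem hasB_iff (M : BMat) : IsMinor B M ↔ HasB M.e := by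
  constructor
  · rintro ⟨f, g, hf, -, hg, -, h⟩
    obtain ⟨a₀, b₁, h0, h1', e0⟩ := h (0 : Fin 4) (1 : Fin 4) (by decide)
    obtain ⟨a₁, b₀, h1, h0', e1⟩ := h (1 : Fin 4) (0 : Fin 4) (by decide)
    obtain ⟨a₂, b₂, h2, h2', e2⟩ := h (2 : Fin 4) (2 : Fin 4) (by decide)
    obtain ⟨a₃, b₃, h3, h3', e3⟩ := h (3 : Fin 4) (3 : Fin 4) (by decide)
    refine ⟨a₀, a₁, a₂, a₃, b₀, b₁, b₂, b₃, ?_, ?_, ?_, ?_, ?_, ?_, e0, e1, e2, e3⟩
    · exact hf.reflect_lt (by rw [h0, h1]; decide)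
    · exact hf.reflect_lt (by rw [h1, h2]; decide)
    · exact hf.reflect_lt (by rw [h2, h3]; decide)
    · exact hg.reflect_lt (by rw [h0', h1']; decide)
    · exact hg.reflect_lt (by rw [h1', h2']; decide)
    · exact hg.reflect_lt (by rw [h2', h3']; decide)
  · rintro ⟨a₀, a₁, a₂, a₃, b₀, b₁, b₂, b₃, h1, h2, h3, g1, g2, g3, e0, e1, e2, e3⟩
    refine isMinor_of_sub (P := B) ![a₀, a₁, a₂, a₃] ![b₀, b₁, b₂, b₃] ?_ ?_ (by decide)
      (by decide) ?_
    · exact Fin.strictMono_iff_lt_succ.2 (by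
        intro i; fin_cases i <;> assumption)
    · exact Fin.strictMono_iff_lt_succ.2 (by
        intro i; fin_cases i <;> assumption)
    · have key : ∀ i j : Fin 4, B.e i j = true → (i = 0 ∧ j = 1) ∨ (i = 1 ∧ j = 0) ∨
          (i = 2 ∧ j = 2) ∨ (i = 3 ∧ j = 3) := by decide
      intro i j hij
      rcases key i j hij with ⟨rfl, rfl⟩ | ⟨rfl, rfl⟩ | ⟨rfl, rfl⟩ | ⟨rfl, rfl⟩ <;> assumption

/-! ## The row bound -/

section rows

variable {p q : ℕ} (w : Fin p → Fin q → Bool) (r : Fin p)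

/-- `w` with a one at `(i, j)` -/
def upd (i : Fin p) (j : Fin q) : Fin p → Fin q → Bool :=
  fun a b => if a = i ∧ b = j then true else w a b

/-- no occurrence of the two patterns, and every change of a zero to a one creates one -/
structure Crit2 : Prop where
  noA : ¬ HasA w
  noB : ¬ HasB w
  flip : ∀ i j, w i j = false → HasA (upd w i j) ∨ HasB (upd w i j)

/-- one 1-entry to the north-west -/
def N1 (x : Fin q) : Prop := ∃ a b, a < r ∧ b < x ∧ w a b = true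
/-- a `12` to the north-west -/
def N2 (x : Fin q) : Prop :=
  ∃ a a' b b', a < a' ∧ a' < r ∧ b < b' ∧ b' < x ∧ w a b = true ∧ w a' b' = true
/-- a `123` to the north-west -/
def N3 (x : Fin q) : Prop :=
  ∃ a a' a'' b b' b'', a < a' ∧ a' < a'' ∧ a'' < r ∧ b < b' ∧ b' < b'' ∧ b'' < x ∧
    w a b = true ∧ w a' b' = true ∧ w a'' b'' = true
/-- one 1-entry to the south-east -/
def E1 (x : Fin q) : Prop := ∃ a b, r < a ∧ x < b ∧ w a b = true
/-- a `12` to the south-east -/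
def E2 (x : Fin q) : Prop :=
  ∃ a a' b b', r < a ∧ a < a' ∧ x < b ∧ b < b' ∧ w a b = true ∧ w a' b' = true
/-- a `123` to the south-east -/
def E3 (x : Fin q) : Prop :=
  ∃ a a' a'' b b' b'', r < a ∧ a < a' ∧ a' < a'' ∧ x < b ∧ b < b' ∧ b' < b'' ∧
    w a b = true ∧ w a' b' = true ∧ w a'' b'' = true
/-- a `21` to the north-west -/
def M2 (x : Fin q) : Prop :=
  ∃ a a' b b', a < a' ∧ a' < r ∧ b < b' ∧ b' < x ∧ w a b' = true ∧ w a' b = true
/-- a `213` to the north-west -/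
def M3 (x : Fin q) : Prop :=
  ∃ a a' a'' b b' b'', a < a' ∧ a' < a'' ∧ a'' < r ∧ b < b' ∧ b' < b'' ∧ b'' < x ∧
    w a b' = true ∧ w a' b = true ∧ w a'' b'' = true
/-- the entry would be the second one of a `2134` -/
def H (x : Fin q) : Prop :=
  ∃ a₀ a₂ a₃ b₁ b₂ b₃, a₀ < r ∧ r < a₂ ∧ a₂ < a₃ ∧ x < b₁ ∧ b₁ < b₂ ∧ b₂ < b₃ ∧
    w a₀ b₁ = true ∧ w a₂ b₂ = true ∧ w a₃ b₃ = true
/-- the entry would be the first one of a `2134` -/
def G (x : Fin q) : Prop :=
  ∃ a₁ a₂ a₃ b₀ b₂ b₃, r < a₁ ∧ a₁ < a₂ ∧ a₂ < a₃ ∧ b₀ < x ∧ x < b₂ ∧ b₂ < b₃ ∧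
    w a₁ b₀ = true ∧ w a₂ b₂ = true ∧ w a₃ b₃ = true

/-- the eight reasons for a zero -/
def S (k : Fin 8) (x : Fin q) : Prop :=
  match k with
  | 0 => E3 w r x
  | 1 => N1 w r x ∧ E2 w r x
  | 2 => N2 w r x ∧ E1 w r x
  | 3 => N3 w r x
  | 4 => M2 w r x ∧ E1 w r x
  | 5 => M3 w r x
  | 6 => H w r x
  | 7 => G w r x

variable {w r}

theorem upd_true {i a : Fin p} {j b : Fin q} (h : upd w i j a b = true) :
    (a = i ∧ b = j) ∨ w a b = true := by
  unfold upd at h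
  split_ifs at h with h1
  · exact Or.inl h1
  · exact Or.inr h

theorem upd_ne {i a : Fin p} {j b : Fin q} (h : upd w i j a b = true) (hne : a ≠ i) :
    w a b = true := by
  rcases upd_true h with h | h
  · exact absurd h.1 hne
  · exact h

theorem cover (hw : Crit2 w) (x : Fin q) (hx : w r x = false) : ∃ k, S w r k x := by
  rcases hw.flip r x hx with h | h
  · obtain ⟨a₀, a₁, a₂, a₃, b₀, b₁, b₂, b₃, h1, h2, h3, g1, g2, g3, e0, e1, e2, e3⟩ := h
    by_cases c0 : a₀ = r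
    · subst c0
      have f1 := upd_ne e1 h1.ne'
      have f2 := upd_ne e2 (h1.trans h2).ne'
      have f3 := upd_ne e3 (h1.trans (h2.trans h3)).ne'
      rcases upd_true e0 with ⟨-, rfl⟩ | f0
      · exact ⟨0, a₁, a₂, a₃, b₁, b₂, b₃, h1, h2, h3, g1, g2, g3, f1, f2, f3⟩
      · exact absurd ⟨_, a₁, a₂, a₃, b₀, b₁, b₂, b₃, h1, h2, h3, g1, g2, g3, f0, f1, f2, f3⟩
          hw.noA
    · have f0 := upd_ne e0 c0
      by_cases c1 : a₁ = r
      · subst c1
        have f2 := upd_ne e2 h2.ne'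
        have f3 := upd_ne e3 (h2.trans h3).ne'
        rcases upd_true e1 with ⟨-, rfl⟩ | f1
        · exact ⟨1, ⟨a₀, b₀, h1, g1, f0⟩, a₂, a₃, b₂, b₃, h2, h3, g2, g3, f2, f3⟩
        · exact absurd ⟨a₀, _, a₂, a₃, b₀, b₁, b₂, b₃, h1, h2, h3, g1, g2, g3, f0, f1, f2, f3⟩
            hw.noA
      · have f1 := upd_ne e1 c1
        by_cases c2 : a₂ = r
        · subst c2
          have f3 := upd_ne e3 h3.ne'
          rcases upd_true e2 with ⟨-, rfl⟩ | f2
          · exact ⟨2, ⟨a₀, a₁, b₀, b₁, h1, h2, g1, g2, f0, f1⟩, a₃, b₃, h3, g3, f3⟩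
          · exact absurd ⟨a₀, a₁, _, a₃, b₀, b₁, b₂, b₃, h1, h2, h3, g1, g2, g3, f0, f1, f2, f3⟩
              hw.noA
        · have f2 := upd_ne e2 c2
          rcases upd_true e3 with ⟨rfl, rfl⟩ | f3
          · exact ⟨3, a₀, a₁, a₂, b₀, b₁, b₂, h1, h2, h3, g1, g2, g3, f0, f1, f2⟩
          · exact absurd ⟨a₀, a₁, a₂, a₃, b₀, b₁, b₂, b₃, h1, h2, h3, g1, g2, g3, f0, f1, f2,
              f3⟩ hw.noA
  · obtain ⟨a₀, a₁, a₂, a₃, b₀, b₁, b₂, b₃, h1, h2, h3, g1, g2, g3, e0, e1, e2, e3⟩ := h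
    by_cases c0 : a₀ = r
    · subst c0
      have f1 := upd_ne e1 h1.ne'
      have f2 := upd_ne e2 (h1.trans h2).ne'
      have f3 := upd_ne e3 (h1.trans (h2.trans h3)).ne'
      rcases upd_true e0 with ⟨-, rfl⟩ | f0
      · exact ⟨7, a₁, a₂, a₃, b₀, b₂, b₃, h1, h2, h3, g1, g2, g3, f1, f2, f3⟩
      · exact absurd ⟨_, a₁, a₂, a₃, b₀, b₁, b₂, b₃, h1, h2, h3, g1, g2, g3, f0, f1, f2, f3⟩
          hw.noB
    · have f0 := upd_ne e0 c0
      by_cases c1 : a₁ = r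
      · subst c1
        have f2 := upd_ne e2 h2.ne'
        have f3 := upd_ne e3 (h2.trans h3).ne'
        rcases upd_true e1 with ⟨-, rfl⟩ | f1
        · exact ⟨6, a₀, a₂, a₃, b₁, b₂, b₃, h1, h2, h3, g1, g2, g3, f0, f2, f3⟩
        · exact absurd ⟨a₀, _, a₂, a₃, b₀, b₁, b₂, b₃, h1, h2, h3, g1, g2, g3, f0, f1, f2, f3⟩
            hw.noB
      · have f1 := upd_ne e1 c1
        by_cases c2 : a₂ = r
        · subst c2
          have f3 := upd_ne e3 h3.ne'
          rcases upd_true e2 with ⟨-, rfl⟩ | f2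
          · exact ⟨4, ⟨a₀, a₁, b₀, b₁, h1, h2, g1, g2, f0, f1⟩, a₃, b₃, h3, g3, f3⟩
          · exact absurd ⟨a₀, a₁, _, a₃, b₀, b₁, b₂, b₃, h1, h2, h3, g1, g2, g3, f0, f1, f2, f3⟩
              hw.noB
        · have f2 := upd_ne e2 c2
          rcases upd_true e3 with ⟨rfl, rfl⟩ | f3
          · exact ⟨5, a₀, a₁, a₂, b₀, b₁, b₂, h1, h2, h3, g1, g2, g3, f0, f1, f2⟩
          · exact absurd ⟨a₀, a₁, a₂, a₃, b₀, b₁, b₂, b₃, h1, h2, h3, g1, g2, g3, f0, f1, f2,
              f3⟩ hw.noB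

theorem not_one (hw : Crit2 w) (k : Fin 8) (x : Fin q) (hx : w r x = true) : ¬ S w r k x := by
  intro h
  match k, h with
  | 0, ⟨a₁, a₂, a₃, b₁, b₂, b₃, h1, h2, h3, g1, g2, g3, e1, e2, e3⟩ =>
    exact hw.noA ⟨r, a₁, a₂, a₃, x, b₁, b₂, b₃, h1, h2, h3, g1, g2, g3, hx, e1, e2, e3⟩
  | 1, ⟨⟨a₀, b₀, h1, g1, e0⟩, a₂, a₃, b₂, b₃, h2, h3, g2, g3, e2, e3⟩ =>
    exact hw.noA ⟨a₀, r, a₂, a₃, b₀, x, b₂, b₃, h1, h2, h3, g1, g2, g3, e0, hx, e2, e3⟩
  | 2, ⟨⟨a₀, a₁, b₀, b₁, h1, h2, g1, g2, e0, e1⟩, a₃, b₃, h3, g3, e3⟩ =>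
    exact hw.noA ⟨a₀, a₁, r, a₃, b₀, b₁, x, b₃, h1, h2, h3, g1, g2, g3, e0, e1, hx, e3⟩
  | 3, ⟨a₀, a₁, a₂, b₀, b₁, b₂, h1, h2, h3, g1, g2, g3, e0, e1, e2⟩ =>
    exact hw.noA ⟨a₀, a₁, a₂, r, b₀, b₁, b₂, x, h1, h2, h3, g1, g2, g3, e0, e1, e2, hx⟩
  | 4, ⟨⟨a₀, a₁, b₀, b₁, h1, h2, g1, g2, e0, e1⟩, a₃, b₃, h3, g3, e3⟩ =>
    exact hw.noB ⟨a₀, a₁, r, a₃, b₀, b₁, x, b₃, h1, h2, h3, g1, g2, g3, e0, e1, hx, e3⟩
  | 5, ⟨a₀, a₁, a₂, b₀, b₁, b₂, h1, h2, h3, g1, g2, g3, e0, e1, e2⟩ =>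
    exact hw.noB ⟨a₀, a₁, a₂, r, b₀, b₁, b₂, x, h1, h2, h3, g1, g2, g3, e0, e1, e2, hx⟩
  | 6, ⟨a₀, a₂, a₃, b₁, b₂, b₃, h1, h2, h3, g1, g2, g3, e0, e2, e3⟩ =>
    exact hw.noB ⟨a₀, r, a₂, a₃, x, b₁, b₂, b₃, h1, h2, h3, g1, g2, g3, e0, hx, e2, e3⟩
  | 7, ⟨a₁, a₂, a₃, b₀, b₂, b₃, h1, h2, h3, g1, g2, g3, e1, e2, e3⟩ =>
    exact hw.noB ⟨r, a₁, a₂, a₃, b₀, x, b₂, b₃, h1, h2, h3, g1, g2, g3, hx, e1, e2, e3⟩

theorem convex (k : Fin 8) (hk : k ≠ 7) (x y z : Fin q) (hxy : x ≤ y) (hyz : y ≤ z)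
    (hx : S w r k x) (hz : S w r k z) : S w r k y := by
  match k, hk, hx, hz with
  | 0, _, _, ⟨a₁, a₂, a₃, b₁, b₂, b₃, h1, h2, h3, g1, g2, g3, e1, e2, e3⟩ =>
    exact ⟨a₁, a₂, a₃, b₁, b₂, b₃, h1, h2, h3, hyz.trans_lt g1, g2, g3, e1, e2, e3⟩
  | 1, _, ⟨⟨a₀, b₀, h1, g1, e0⟩, _⟩, ⟨_, a₂, a₃, b₂, b₃, h2, h3, g2, g3, e2, e3⟩ =>
    exact ⟨⟨a₀, b₀, h1, g1.trans_le hxy, e0⟩, a₂, a₃, b₂, b₃, h2, h3, hyz.trans_lt g2, g3, e2, e3⟩
  | 2, _, ⟨⟨a₀, a₁, b₀, b₁, h1, h2, g1, g2, e0, e1⟩, _⟩, ⟨_, a₃, b₃, h3, g3, e3⟩ =>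
    exact ⟨⟨a₀, a₁, b₀, b₁, h1, h2, g1, g2.trans_le hxy, e0, e1⟩, a₃, b₃, h3, hyz.trans_lt g3, e3⟩
  | 3, _, ⟨a₀, a₁, a₂, b₀, b₁, b₂, h1, h2, h3, g1, g2, g3, e0, e1, e2⟩, _ =>
    exact ⟨a₀, a₁, a₂, b₀, b₁, b₂, h1, h2, h3, g1, g2, g3.trans_le hxy, e0, e1, e2⟩
  | 4, _, ⟨⟨a₀, a₁, b₀, b₁, h1, h2, g1, g2, e0, e1⟩, _⟩, ⟨_, a₃, b₃, h3, g3, e3⟩ =>
    exact ⟨⟨a₀, a₁, b₀, b₁, h1, h2, g1, g2.trans_le hxy, e0, e1⟩, a₃, b₃, h3, hyz.trans_lt g3, e3⟩
  | 5, _, ⟨a₀, a₁, a₂, b₀, b₁, b₂, h1, h2, h3, g1, g2, g3, e0, e1, e2⟩, _ =>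
    exact ⟨a₀, a₁, a₂, b₀, b₁, b₂, h1, h2, h3, g1, g2, g3.trans_le hxy, e0, e1, e2⟩
  | 6, _, _, ⟨a₀, a₂, a₃, b₁, b₂, b₃, h1, h2, h3, g1, g2, g3, e0, e2, e3⟩ =>
    exact ⟨a₀, a₂, a₃, b₁, b₂, b₃, h1, h2, h3, hyz.trans_lt g1, g2, g3, e0, e2, e3⟩
  | 7, hk, _, _ => exact absurd rfl hk

theorem row_inj (hw : Crit2 w) (k : Fin 8) (x z : Fin q) (hxz : x < z)
    (hx1 : ∀ y : Fin q, (y : ℕ) + 1 = x → w r y = true)
    (hz1 : ∀ y : Fin q, (y : ℕ) + 1 = z → w r y = true)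
    (hx : S w r k x) (hz : S w r k z) : False := by
  have hxz' : (x : ℕ) < z := hxz
  have hzq := z.2
  let y : Fin q := ⟨z - 1, by omega⟩
  have hy : w r y = true := hz1 y (by show (z : ℕ) - 1 + 1 = z; omega)
  have hyz : y < z := by show (z : ℕ) - 1 < z; omega
  by_cases hk : k = 7
  · subst hk
    obtain ⟨_, _, _, b, _, _, _, _, _, hb, _⟩ := hx
    have hb' : (b : ℕ) < x := hb
    let y' : Fin q := ⟨x - 1, by omega⟩
    have hy' : w r y' = true := hx1 y' (by show (x : ℕ) - 1 + 1 = x; omega)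
    have hyy : y' < y := by show (x : ℕ) - 1 < z - 1; omega
    obtain ⟨a₁, a₂, a₃, b₀, b₂, b₃, h1, h2, h3, g1, g2, g3, e1, e2, e3⟩ := hz
    have g1' : (b₀ : ℕ) < z := g1
    rcases lt_or_eq_of_le (show b₀ ≤ y by show (b₀ : ℕ) ≤ z - 1; omega) with hlt | heq
    · exact hw.noB ⟨r, a₁, a₂, a₃, b₀, y, b₂, b₃, h1, h2, h3, hlt, hyz.trans g2, g3, hy, e1, e2,
        e3⟩
    · rw [heq] at e1
      exact hw.noA ⟨r, a₁, a₂, a₃, y', y, b₂, b₃, h1, h2, h3, hyy, hyz.trans g2, g3, hy', e1, e2,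
        e3⟩
  · have hxy : x ≤ y := by show (x : ℕ) ≤ z - 1; omega
    exact not_one hw k y hy (convex k hk x y z hxy hyz.le hx hz)

theorem row_bound (hw : Crit2 w) (r : Fin p) : zeroRuns (fun j => w r j) ≤ 8 := by
  classical
  unfold zeroRuns
  set T := Finset.univ.filter fun x : Fin q =>
    w r x = false ∧ ∀ y : Fin q, (y : ℕ) + 1 = x → w r y = true with hT
  have hk : ∀ x : Fin q, ∃ k : Fin 8, x ∈ T → S w r k x := by
    intro x
    by_cases hx : x ∈ T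
    · obtain ⟨k, hk⟩ := cover (r := r) hw x (Finset.mem_filter.1 hx).2.1
      exact ⟨k, fun _ => hk⟩
    · exact ⟨0, fun h => absurd h hx⟩
  choose κ hκ using hk
  have hinj : Set.InjOn κ (T : Set (Fin q)) := by
    intro x hx z hz hxz
    have hx' := (Finset.mem_filter.1 (Finset.mem_coe.1 hx)).2
    have hz' := (Finset.mem_filter.1 (Finset.mem_coe.1 hz)).2
    rcases lt_trichotomy x z with h | h | h
    · exact (row_inj hw (κ x) x z h hx'.2 hz'.2 (hκ x hx) (hxz ▸ hκ z hz)).elim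
    · exact h
    · exact (row_inj hw (κ x) z x h hz'.2 hx'.2 (hxz ▸ hκ z hz) (hκ x hx)).elim
  calc T.card ≤ (Finset.univ : Finset (Fin 8)).card :=
        Finset.card_le_card_of_injOn κ (fun x _ => Finset.mem_coe.2 (Finset.mem_univ _)) hinj
    _ = 8 := by simp

theorem hasA_transpose (h : HasA (fun (j : Fin q) (i : Fin p) => w i j)) : HasA w := by
  obtain ⟨a₀, a₁, a₂, a₃, b₀, b₁, b₂, b₃, h1, h2, h3, g1, g2, g3, e0, e1, e2, e3⟩ := h
  exact ⟨b₀, b₁, b₂, b₃, a₀, a₁, a₂, a₃, g1, g2, g3, h1, h2, h3, e0, e1, e2, e3⟩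

theorem hasB_transpose (h : HasB (fun (j : Fin q) (i : Fin p) => w i j)) : HasB w := by
  obtain ⟨a₀, a₁, a₂, a₃, b₀, b₁, b₂, b₃, h1, h2, h3, g1, g2, g3, e0, e1, e2, e3⟩ := h
  exact ⟨b₀, b₁, b₂, b₃, a₀, a₁, a₂, a₃, g1, g2, g3, h1, h2, h3, e1, e0, e2, e3⟩

theorem crit2_transpose (hw : Crit2 w) : Crit2 (fun (j : Fin q) (i : Fin p) => w i j) where
  noA := fun h => hw.noA (hasA_transpose h)
  noB := fun h => hw.noB (hasB_transpose h)
  flip := by
    intro j i hij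
    have he : upd (fun (j : Fin q) (i : Fin p) => w i j) j i =
        fun (j' : Fin q) (i' : Fin p) => upd w i j i' j' := by
      funext j' i'
      unfold upd
      simp only [and_comm]
    rw [he]
    rcases hw.flip i j hij with h | h
    · left
      exact hasA_transpose (w := fun (j' : Fin q) (i' : Fin p) => upd w i j i' j') h
    · right
      exact hasB_transpose (w := fun (j' : Fin q) (i' : Fin p) => upd w i j i' j') h

end rows

theorem crit2_of_critical (M : BMat) (hM : Critical (Av {A, B}) M) : Crit2 M.e where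
  noA := fun h => hM.1 A (Or.inl rfl) ((hasA_iff M).2 h)
  noB := fun h => hM.1 B (Or.inr rfl) ((hasB_iff M).2 h)
  flip := by
    intro i j hij
    have h := hM.2 i j hij
    unfold Av at h
    change ¬ (∀ P ∈ ({A, B} : Set BMat), ¬ IsMinor P (M.setOne i j)) at h
    push Not at h
    obtain ⟨P, hP, h⟩ := h
    rcases hP with rfl | hP
    · left
      exact (hasA_iff _).1 h
    · right
      rw [Set.mem_singleton_iff.1 hP] at h
      exact (hasB_iff _).1 h

theorem bounded_AB : Bounded (Av {A, B}) := by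
  refine ⟨⟨8, fun M hM i => row_bound (crit2_of_critical M hM) i⟩,
    ⟨8, fun M hM j => ?_⟩⟩
  exact row_bound (crit2_transpose (crit2_of_critical M hM)) j

/-! ## The class of the enlarged patterns -/

/-- the 1-blocks of the example, in block coordinates -/
def O (n u v : ℕ) : Prop :=
  (u % 4 = 0 ∧ v + 2 * (u / 4) + 1 = 2 * n) ∨ (u % 4 = 2 ∧ v + 2 * (u / 4) = 2 * n) ∨
    (u % 4 = 3 ∧ v = 0)

instance (n u v : ℕ) : Decidable (O n u v) := by unfold O; infer_instance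

/-- the example: each entry of the block matrix is doubled in both directions -/
def w₀ (n : ℕ) : Fin (8 * n) → Fin (4 * n + 2) → Bool :=
  fun a b => decide (O n ((a : ℕ) / 2) ((b : ℕ) / 2))

/-- the example as a binary matrix -/
def W (n : ℕ) (w : Fin (8 * n) → Fin (4 * n + 2) → Bool) : BMat := ⟨8 * n, 4 * n + 2, w⟩

theorem gap' {p k : ℕ} {f : Fin p → Fin k} (hf : Monotone f) (hs : Function.Surjective f)
    {a b : Fin p} {i j : Fin k} (ha : f a = i) (hb : f b = j) (h : i < j) :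
    (a : ℕ) + ((j : ℕ) - i) ≤ b := by
  have h1 := gap f hf hs a b (by rw [ha, hb]; exact h.le)
  have h2 : a < b := hf.reflect_lt (by rw [ha, hb]; exact h)
  rw [ha, hb] at h1
  have h3 : (a : ℕ) < b := h2
  have h4 : (i : ℕ) < j := h
  omega

theorem noA' (n : ℕ) : ¬ IsMinor A' (W n (w₀ n)) := by
  rintro ⟨f, g, hf, hfs, hg, hgs, h⟩
  obtain ⟨a₀, b₀, h0, h0', -⟩ := h (0 : Fin 7) (0 : Fin 7) (by decide)
  obtain ⟨a₁, b₁, h1, h1', e1⟩ := h (2 : Fin 7) (2 : Fin 7) (by decide)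
  obtain ⟨a₂, b₂, h2, h2', e2⟩ := h (4 : Fin 7) (4 : Fin 7) (by decide)
  obtain ⟨a₃, b₃, h3, h3', e3⟩ := h (6 : Fin 7) (6 : Fin 7) (by decide)
  have r12 : (a₁ : ℕ) + 2 ≤ a₂ := gap' hf hfs h1 h2 (by decide)
  have r23 : (a₂ : ℕ) + 2 ≤ a₃ := gap' hf hfs h2 h3 (by decide)
  have c01 : (b₀ : ℕ) + 2 ≤ b₁ := gap' hg hgs h0' h1' (by decide)
  have c12 : (b₁ : ℕ) + 2 ≤ b₂ := gap' hg hgs h1' h2' (by decide)
  have c23 : (b₂ : ℕ) + 2 ≤ b₃ := gap' hg hgs h2' h3' (by decide)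
  have e1 : O n ((a₁ : ℕ) / 2) ((b₁ : ℕ) / 2) := of_decide_eq_true e1
  have e2 : O n ((a₂ : ℕ) / 2) ((b₂ : ℕ) / 2) := of_decide_eq_true e2
  have e3 : O n ((a₃ : ℕ) / 2) ((b₃ : ℕ) / 2) := of_decide_eq_true e3
  unfold O at e1 e2 e3
  omega

theorem noB' (n : ℕ) : ¬ IsMinor B' (W n (w₀ n)) := by
  rintro ⟨f, g, hf, hfs, hg, hgs, h⟩
  obtain ⟨a₀, b₁, h0, h1', e0⟩ := h (0 : Fin 6) (2 : Fin 6) (by decide)
  obtain ⟨a₁, b₀, h1, h0', e1⟩ := h (2 : Fin 6) (0 : Fin 6) (by decide)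
  obtain ⟨a₂, b₂, h2, h2', e2⟩ := h (4 : Fin 6) (4 : Fin 6) (by decide)
  have r01 : (a₀ : ℕ) + 2 ≤ a₁ := gap' hf hfs h0 h1 (by decide)
  have r12 : (a₁ : ℕ) + 2 ≤ a₂ := gap' hf hfs h1 h2 (by decide)
  have c01 : (b₀ : ℕ) + 2 ≤ b₁ := gap' hg hgs h0' h1' (by decide)
  have c12 : (b₁ : ℕ) + 2 ≤ b₂ := gap' hg hgs h1' h2' (by decide)
  have e0 : O n ((a₀ : ℕ) / 2) ((b₁ : ℕ) / 2) := of_decide_eq_true e0
  have e1 : O n ((a₁ : ℕ) / 2) ((b₀ : ℕ) / 2) := of_decide_eq_true e1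
  have e2 : O n ((a₂ : ℕ) / 2) ((b₂ : ℕ) / 2) := of_decide_eq_true e2
  unfold O at e0 e1 e2
  omega

theorem mem_av (n : ℕ) : W n (w₀ n) ∈ Av {A', B'} := by
  intro P hP
  rcases hP with rfl | hP
  · exact noA' n
  · rw [Set.mem_singleton_iff.1 hP]
    exact noB' n

/-- A one at `(8 i + 2, 0)` would create `B'`. -/
theorem zero_entry (n : ℕ) (w : Fin (8 * n) → Fin (4 * n + 2) → Bool)
    (hw : ∀ a b, w₀ n a b = true → w a b = true) (hav : W n w ∈ Av {A', B'}) (i : ℕ) (hi : i < n) :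
    w ⟨8 * i + 2, by omega⟩ ⟨0, by omega⟩ = false := by
  by_contra hc
  rw [Bool.not_eq_false] at hc
  refine hav B' (Or.inr rfl) ?_
  refine isMinor_of_sub (P := B') (M := W n w)
    (fun k : Fin 6 => (⟨8 * i + k.val, by have := k.2; omega⟩ : Fin (8 * n)))
    (fun k : Fin 6 => (⟨if k.val < 2 then k.val else 4 * (n - i) + k.val - 4, by
      have := k.2; split_ifs <;> omega⟩ : Fin (4 * n + 2))) ?_ ?_ (by decide) (by decide) ?_
  · intro k l hkl
    have hkl' : k.val < l.val := hkl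
    show 8 * i + k.val < 8 * i + l.val
    omega
  · intro k l hkl
    have hkl' : k.val < l.val := hkl
    show (if k.val < 2 then k.val else 4 * (n - i) + k.val - 4) <
      (if l.val < 2 then l.val else 4 * (n - i) + l.val - 4)
    split_ifs <;> omega
  · have key : ∀ k l : Fin 6, B'.e k l = true → (k = 0 ∧ l = 2) ∨ (k = 2 ∧ l = 0) ∨
        (k = 4 ∧ l = 4) ∨ (k = 5 ∧ l = 5) := by decide
    intro k l hkl
    rcases key k l hkl with ⟨rfl, rfl⟩ | ⟨rfl, rfl⟩ | ⟨rfl, rfl⟩ | ⟨rfl, rfl⟩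
    · apply hw
      apply decide_eq_true
      show O n ((8 * i + 0) / 2) ((4 * (n - i) + 2 - 4) / 2)
      unfold O
      omega
    · exact hc
    · apply hw
      apply decide_eq_true
      show O n ((8 * i + 4) / 2) ((4 * (n - i) + 4 - 4) / 2)
      unfold O
      omega
    · apply hw
      apply decide_eq_true
      show O n ((8 * i + 5) / 2) ((4 * (n - i) + 5 - 4) / 2)
      unfold O
      omega

theorem exists_critical (n : ℕ) : ∃ w : Fin (8 * n) → Fin (4 * n + 2) → Bool,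
    (∀ a b, w₀ n a b = true → w a b = true) ∧ Critical (Av {A', B'}) (W n w) := by
  obtain ⟨w, hw, hmax⟩ := Finite.exists_le_maximal
    (p := fun w : Fin (8 * n) → Fin (4 * n + 2) → Bool => W n w ∈ Av {A', B'}) (mem_av n)
  refine ⟨w, ?_, hmax.1, ?_⟩
  · intro a b h
    have h1 : w₀ n a b ≤ w a b := hw a b
    rw [h] at h1
    exact Bool.eq_true_of_true_le h1
  · intro i j hij hmem
    have h1 : w ≤ upd w i j := by
      intro a b
      unfold upd
      split_ifs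
      · exact Bool.le_true _
      · exact le_rfl
    have h2 : upd w i j ≤ w := hmax.2 (show W n (upd w i j) ∈ Av {A', B'} from hmem) h1
    have h3 : upd w i j i j ≤ w i j := h2 i j
    have h4 : upd w i j i j = true := by simp [upd]
    rw [h4] at h3
    have h5 : w i j = true := Bool.eq_true_of_true_le h3
    have h6 : w i j = false := hij
    rw [h5] at h6
    exact Bool.noConfusion h6

theorem not_colBounded : ¬ ColBounded (Av {A', B'}) := by
  classical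
  rintro ⟨K, hK⟩
  obtain ⟨n, hn⟩ : ∃ n, n = K + 1 := ⟨_, rfl⟩
  obtain ⟨w, hw, hcrit⟩ := exists_critical n
  let z : Fin (4 * n + 2) := ⟨0, by omega⟩
  have h0 := hK (W n w) hcrit z
  have hz := fun i hi => zero_entry n w hw hcrit.1 i hi
  -- the ones in column `0`
  have hone : ∀ i : ℕ, i < n → ∀ h : 8 * i + 7 < 8 * n, w ⟨8 * i + 7, h⟩ z = true := by
    intro i hi h
    apply hw
    apply decide_eq_true
    show O n ((8 * i + 7) / 2) (0 / 2)
    unfold O
    omega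
  -- start of the run containing row `8 i + 2`
  have hstart : ∀ i : Fin n, ∃ x : Fin (8 * n), (8 * (i : ℕ) ≤ x ∧ (x : ℕ) ≤ 8 * i + 2) ∧
      w x z = false ∧ ∀ y : Fin (8 * n), (y : ℕ) + 1 = x → w y z = true := by
    intro i
    have hi := i.2
    by_cases c0 : w ⟨8 * i, by omega⟩ z = false
    · refine ⟨⟨8 * i, by omega⟩, ⟨le_rfl, by show 8 * (i : ℕ) ≤ _; omega⟩, c0, ?_⟩
      intro y hy
      have hy' : (y : ℕ) + 1 = 8 * i := hy
      have hy2 : y = ⟨8 * (i - 1) + 7, by omega⟩ :=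
        Fin.ext (by show (y : ℕ) = 8 * ((i : ℕ) - 1) + 7; omega)
      rw [hy2]
      exact hone _ (by omega) _
    · rw [Bool.not_eq_false] at c0
      by_cases c1 : w ⟨8 * i + 1, by omega⟩ z = false
      · refine ⟨⟨8 * i + 1, by omega⟩, ⟨by show 8 * (i : ℕ) ≤ 8 * i + 1; omega,
          by show 8 * (i : ℕ) + 1 ≤ _; omega⟩, c1, ?_⟩
        intro y hy
        have hy' : (y : ℕ) + 1 = 8 * i + 1 := hy
        have hy2 : y = ⟨8 * i, by omega⟩ := Fin.ext (by show (y : ℕ) = 8 * (i : ℕ); omega)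
        rw [hy2]
        exact c0
      · rw [Bool.not_eq_false] at c1
        refine ⟨⟨8 * i + 2, by omega⟩, ⟨by show 8 * (i : ℕ) ≤ 8 * i + 2; omega, le_rfl⟩,
          hz i hi, ?_⟩
        intro y hy
        have hy' : (y : ℕ) + 1 = 8 * i + 2 := hy
        have hy2 : y = ⟨8 * i + 1, by omega⟩ :=
          Fin.ext (by show (y : ℕ) = 8 * (i : ℕ) + 1; omega)
        rw [hy2]
        exact c1
  choose σ hσ1 hσ2 using hstart
  have hinj : Function.Injective σ := by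
    intro i j hij
    have h1 := hσ1 i
    have h2 := hσ1 j
    rw [hij] at h1
    apply Fin.ext
    omega
  have hcard : n ≤ zeroRuns (fun i => (W n w).e i z) := by
    unfold zeroRuns
    calc n = (Finset.univ : Finset (Fin n)).card := by simp
      _ ≤ _ := by
        apply Finset.card_le_card_of_injOn σ
        · intro i _
          exact Finset.mem_coe.2 (Finset.mem_filter.2 ⟨Finset.mem_univ _, hσ2 i⟩)
        · exact hinj.injOn
  omega

/-- the corner entry of a matrix is `1` -/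
def Corner (M : BMat) : Prop := ∃ (h : 0 < M.m) (h' : 0 < M.n), M.e ⟨0, h⟩ ⟨0, h'⟩ = true

theorem A_ne_B : B ≠ A := by
  intro h
  have h1 : Corner A := ⟨by decide, by decide, by decide⟩
  rw [← h] at h1
  obtain ⟨_, _, h2⟩ := h1
  have h3 : B.e (0 : Fin 4) (0 : Fin 4) = true := h2
  exact absurd h3 (by decide)

/-- **The answer to Q1 is no.**  With `A`, `B` the permutation matrices of `1234` and `2134`, and
`A'`, `B'` obtained from them by inserting empty rows and columns, `Av({A, B})` is bounded and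
`Av({A', B'})` is not (its column-complexity is infinite).  So the statement of Q1 is false. -/
theorem result :
    (InsertEmpty A A' ∧ InsertEmpty B B' ∧ Bounded (Av {A, B}) ∧ ¬ ColBounded (Av {A', B'})) ∧
    ¬ ∀ (F : Set BMat) (φ : BMat → BMat), (∀ P ∈ F, InsertEmpty P (φ P)) →
      (Bounded (Av (φ '' F)) ↔ Bounded (Av F)) := by
  classical
  refine ⟨⟨insertEmpty_A, insertEmpty_B, bounded_AB, not_colBounded⟩, ?_⟩
  intro h
  let φ : BMat → BMat := fun P => if P = A then A' else B'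
  have h1 : φ '' {A, B} = {A', B'} := by
    rw [Set.image_pair]
    have e1 : φ A = A' := if_pos rfl
    have e2 : φ B = B' := if_neg A_ne_B
    rw [e1, e2]
  have h2 := h {A, B} φ (by
    intro P hP
    rcases hP with rfl | hP
    · rw [show φ A = A' from if_pos rfl]
      exact insertEmpty_A
    · rw [Set.mem_singleton_iff.1 hP, show φ B = B' from if_neg A_ne_B]
      exact insertEmpty_B)
  rw [h1] at h2
  exact not_colBounded (h2.2 bounded_AB).2

end Pool.Agent.Results.MP_5adcc8_co.EmptyLinesMatter
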